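import Mathlib

/-! CT1 (project of helper325, MP_107960_al): the derived subgroup of a nilpotent group generated by
`d` elements consists of products of `d` commutators `⁅g i, x i⁆`.  (helper164) -/

set_option autoImplicit false

open scoped commutatorElement IsMulCommutative

namespace Pool.Agent.H164.CT

universe u

lemma prod_central {Q : Type u} [Group Q] : ∀ {d : ℕ} (c : Fin d → Subgroup.center Q) (a : Fin d → Q),
    (List.ofFn fun i => (c i : Q) * a i).prod = ((∏ i, c i : Subgroup.center Q) : Q) * (List.ofFn a).prod := by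
  intro d
  induction d with
  | zero => intro c a; simp
  | succ d ih =>
    intro c a
    rw [List.ofFn_succ, List.prod_cons, ih (fun i => c i.succ) (fun i => a i.succ), Fin.prod_univ_succ,
      List.ofFn_succ, List.prod_cons, Subgroup.coe_mul]
    have h := (Subgroup.mem_center_iff.1 (∏ i : Fin d, c i.succ).2) (a 0)
    simp only [mul_assoc]
    rw [← mul_assoc (a 0), h, mul_assoc]

section step

variable {G : Type u} [Group G] (k : ℕ)

/-- the terms of the lower central series -/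
abbrev LL (G : Type u) [Group G] (k : ℕ) : Subgroup G := Subgroup.lowerCentralSeries (⊤ : Subgroup G) k

lemma cen {c : G} (hc : c ∈ LL G (k + 1)) :
    (QuotientGroup.mk' (LL G (k + 2)) c) ∈ Subgroup.center (G ⧸ LL G (k + 2)) := by
  rw [Subgroup.mem_center_iff]
  intro g
  obtain ⟨y, rfl⟩ := QuotientGroup.mk'_surjective _ g
  rw [← map_mul, ← map_mul, ← inv_mul_eq_one, ← map_inv, ← map_mul,
    ← MonoidHom.mem_ker, QuotientGroup.ker_mk']
  have h : ⁅c⁻¹, y⁻¹⁆ ∈ LL G (k + 2) :=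
    Subgroup.commutator_mem_commutator ((LL G (k + 1)).inv_mem hc) (Subgroup.mem_top _)
  have e : (y * c)⁻¹ * (c * y) = ⁅c⁻¹, y⁻¹⁆ := by
    rw [commutatorElement_def]; group
  rw [e]; exact h

/-- the commutator map modulo the next term -/
def phi (h : LL G k) (y : G) : Subgroup.center (G ⧸ LL G (k + 2)) :=
  ⟨QuotientGroup.mk' (LL G (k + 2)) ⁅(h : G), y⁆,
    cen k (Subgroup.commutator_mem_commutator h.2 (Subgroup.mem_top _))⟩

lemma phi_mul_left (h₁ h₂ : LL G k) (y : G) : phi k (h₁ * h₂) y = phi k h₁ y * phi k h₂ y := by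
  apply Subtype.ext
  show QuotientGroup.mk' (LL G (k + 2)) ⁅((h₁ * h₂ : LL G k) : G), y⁆ =
    QuotientGroup.mk' (LL G (k + 2)) ⁅(h₁ : G), y⁆ * QuotientGroup.mk' (LL G (k + 2)) ⁅(h₂ : G), y⁆
  have e : ⁅((h₁ * h₂ : LL G k) : G), y⁆ = h₁ * ⁅(h₂ : G), y⁆ * (h₁ : G)⁻¹ * ⁅(h₁ : G), y⁆ := by
    simp only [commutatorElement_def, Subgroup.coe_mul]; group
  rw [e, map_mul, map_mul, map_mul, map_inv]
  have h := Subgroup.mem_center_iff.1 (phi k h₂ y).2
  have h' : ∀ g, g * QuotientGroup.mk' (LL G (k + 2)) ⁅(h₂ : G), y⁆ =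
    QuotientGroup.mk' (LL G (k + 2)) ⁅(h₂ : G), y⁆ * g := h
  rw [h', mul_assoc _ _ (QuotientGroup.mk' (LL G (k + 2)) (h₁ : G))⁻¹, mul_inv_cancel, mul_one, ← h']

lemma phi_mul_right (h : LL G k) (y₁ y₂ : G) : phi k h (y₁ * y₂) = phi k h y₁ * phi k h y₂ := by
  apply Subtype.ext
  show QuotientGroup.mk' (LL G (k + 2)) ⁅(h : G), y₁ * y₂⁆ =
    QuotientGroup.mk' (LL G (k + 2)) ⁅(h : G), y₁⁆ * QuotientGroup.mk' (LL G (k + 2)) ⁅(h : G), y₂⁆
  have e : ⁅(h : G), y₁ * y₂⁆ = ⁅(h : G), y₁⁆ * (y₁ * ⁅(h : G), y₂⁆ * y₁⁻¹) := by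
    simp only [commutatorElement_def]; group
  rw [e, map_mul, map_mul, map_mul, map_inv]
  have h' : ∀ g, g * QuotientGroup.mk' (LL G (k + 2)) ⁅(h : G), y₂⁆ =
    QuotientGroup.mk' (LL G (k + 2)) ⁅(h : G), y₂⁆ * g := Subgroup.mem_center_iff.1 (phi k h y₂).2
  rw [h' (QuotientGroup.mk' (LL G (k + 2)) y₁), mul_assoc _ (QuotientGroup.mk' (LL G (k + 2)) y₁),
    mul_inv_cancel, mul_one]

lemma phi_one_right (h : LL G k) : phi k h 1 = 1 := by
  have := phi_mul_right k h 1 1
  rw [mul_one] at this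
  exact left_eq_mul.1 this

lemma phi_one_left (y : G) : phi k (1 : LL G k) y = 1 := by
  have := phi_mul_left k (1 : LL G k) 1 y
  rw [mul_one] at this
  exact left_eq_mul.1 this

/-- the product of the commutator maps -/
def Psi {d : ℕ} (x : Fin d → G) : (Fin d → LL G k) →* Subgroup.center (G ⧸ LL G (k + 2)) where
  toFun h := ∏ i, phi k (h i) (x i)
  map_one' := Finset.prod_eq_one (fun i _ => phi_one_left k (x i))
  map_mul' h h' := by
    simp only [Pi.mul_apply, phi_mul_left]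
    exact Finset.prod_mul_distrib

lemma phi_mem {d : ℕ} (x : Fin d → G) (hx : Subgroup.closure (Set.range x) = ⊤) (y : G) :
    ∀ h : LL G k, phi k h y ∈ (Psi k x).range := by
  have hy : y ∈ Subgroup.closure (Set.range x) := by rw [hx]; exact Subgroup.mem_top _
  induction hy using Subgroup.closure_induction with
  | mem y hy =>
    obtain ⟨i, rfl⟩ := hy
    intro h
    refine ⟨Pi.mulSingle i h, ?_⟩
    show ∏ j, phi k (Pi.mulSingle (M := fun _ => LL G k) i h j) (x j) = phi k h (x i)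
    rw [Finset.prod_eq_single i]
    · rw [Pi.mulSingle_eq_same]
    · intro j _ hj
      rw [Pi.mulSingle_eq_of_ne hj, phi_one_left]
    · intro h; exact absurd (Finset.mem_univ i) h
  | one => intro h; rw [phi_one_right]; exact Subgroup.one_mem _
  | mul y₁ y₂ _ _ h1 h2 =>
    intro h
    rw [phi_mul_right]
    exact Subgroup.mul_mem _ (h1 h) (h2 h)
  | inv y _ h1 =>
    intro h
    have e : phi k h y * phi k h y⁻¹ = 1 := by
      rw [← phi_mul_right, mul_inv_cancel, phi_one_right]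
    rw [← inv_eq_of_mul_eq_one_right e]
    exact Subgroup.inv_mem _ (h1 h)

lemma lcs_mem {d : ℕ} (x : Fin d → G) (hx : Subgroup.closure (Set.range x) = ⊤) (w : G)
    (hw : w ∈ LL G (k + 1)) :
    ∃ h : Fin d → LL G k, QuotientGroup.mk' (LL G (k + 2)) w = ((Psi k x h : Subgroup.center (G ⧸ LL G (k + 2))) : G ⧸ LL G (k + 2)) := by
  have hle : LL G (k + 1) ≤ ((Psi k x).range.map (Subgroup.center (G ⧸ LL G (k + 2))).subtype).comap
      (QuotientGroup.mk' (LL G (k + 2))) := by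
    show ⁅LL G k, (⊤ : Subgroup G)⁆ ≤ _
    rw [Subgroup.commutator_le]
    intro h hh y _
    rw [Subgroup.mem_comap, Subgroup.mem_map]
    exact ⟨phi k ⟨h, hh⟩ y, phi_mem k x hx y ⟨h, hh⟩, rfl⟩
  have h1 := hle hw
  rw [Subgroup.mem_comap, Subgroup.mem_map] at h1
  obtain ⟨c, ⟨h, rfl⟩, h2⟩ := h1
  exact ⟨h, h2.symm⟩

end step

theorem width_aux {d : ℕ} {G : Type u} [Group G] (x : Fin d → G)
    (hx : Subgroup.closure (Set.range x) = ⊤) (z : G) (hz : z ∈ commutator G) :
    ∀ k : ℕ, ∃ g : Fin d → G, (List.ofFn fun i => ⁅g i, x i⁆).prod⁻¹ * z ∈ LL G (k + 1) := by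
  intro k
  induction k with
  | zero =>
    refine ⟨fun _ => 1, ?_⟩
    have e : (List.ofFn fun i => ⁅(1 : G), x i⁆).prod = 1 := by
      simp
    rw [e, inv_one, one_mul]
    exact hz
  | succ k ih =>
    obtain ⟨g, hg⟩ := ih
    obtain ⟨h, hh⟩ := lcs_mem k x hx _ hg
    refine ⟨fun i => g i * h i, ?_⟩
    set π := QuotientGroup.mk' (LL G (k + 2)) with hπ
    have e1 : π (List.ofFn fun i => ⁅g i * (h i : G), x i⁆).prod =
        (List.ofFn fun i => (phi k (h i) (x i) : G ⧸ LL G (k + 2)) * π ⁅g i, x i⁆).prod := by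
      rw [map_list_prod, List.map_ofFn]
      congr 2
      funext i
      show π ⁅g i * (h i : G), x i⁆ = π ⁅(h i : G), x i⁆ * π ⁅g i, x i⁆
      have e : ⁅g i * (h i : G), x i⁆ = g i * ⁅(h i : G), x i⁆ * (g i)⁻¹ * ⁅g i, x i⁆ := by
        simp only [commutatorElement_def]; group
      rw [e, map_mul, map_mul, map_mul, map_inv]
      have h' : ∀ q, q * π ⁅(h i : G), x i⁆ = π ⁅(h i : G), x i⁆ * q :=
        Subgroup.mem_center_iff.1 (phi k (h i) (x i)).2
      rw [h' (π (g i)), mul_assoc _ (π (g i)), mul_inv_cancel, mul_one]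
    have e2 : π (List.ofFn fun i => ⁅g i * (h i : G), x i⁆).prod = π z := by
      rw [e1, prod_central]
      have e3 : ((∏ i, phi k (h i) (x i) : Subgroup.center (G ⧸ LL G (k + 2))) : G ⧸ LL G (k + 2)) =
          (π (List.ofFn fun i => ⁅g i, x i⁆).prod)⁻¹ * π z := by
        rw [← map_inv, ← map_mul]
        exact hh.symm
      have e4 : (List.ofFn fun i => π ⁅g i, x i⁆).prod = π (List.ofFn fun i => ⁅g i, x i⁆).prod := by
        rw [map_list_prod, List.map_ofFn]
        rfl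
      have h5 := Subgroup.mem_center_iff.1
        (∏ i, phi k (h i) (x i) : Subgroup.center (G ⧸ LL G (k + 2))).2
        (π (List.ofFn fun i => ⁅g i, x i⁆).prod)
      rw [e4, ← h5, e3, mul_inv_cancel_left]
    have e6 : π ((List.ofFn fun i => ⁅g i * (h i : G), x i⁆).prod⁻¹ * z) = 1 := by
      rw [map_mul, map_inv, e2, inv_mul_cancel]
    rw [← MonoidHom.mem_ker, hπ, QuotientGroup.ker_mk'] at e6
    exact e6

theorem width {d : ℕ} {G : Type u} [Group G] (hG : Group.IsNilpotent G) (x : Fin d → G)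
    (hx : Subgroup.closure (Set.range x) = ⊤) :
    ∀ z ∈ commutator G, ∃ g : Fin d → G, z = (List.ofFn fun i => ⁅g i, x i⁆).prod := by
  intro z hz
  obtain ⟨n, hn⟩ := Subgroup.nilpotent_iff_lowerCentralSeries.1 hG
  obtain ⟨g, hg⟩ := width_aux x hx z hz n
  have h1 := Subgroup.lowerCentralSeries_antitone (⊤ : Subgroup G) (Nat.le_succ n) hg
  rw [hn, Subgroup.mem_bot] at h1
  exact ⟨g, (inv_mul_eq_one.1 h1).symm⟩

end Pool.Agent.H164.CT
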